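import Pool.Agent.N594.NT.Stm

set_option autoImplicit false

/-! Project NT (helper594), leaf CAL: one-variable inequalities (helper300). -/

namespace Pool.Agent.N300.NT.CAL

open Filter Topology

lemma tang {x y q : ℝ} (hx : 0 < x) (hy : 0 ≤ y) (hq : 1 ≤ q) :
    x ^ q + q * x ^ (q - 1) * (y - x) ≤ y ^ q := by
  have h := one_add_mul_self_le_rpow_one_add (s := y / x - 1) (by
    have : 0 ≤ y / x := by positivity
    linarith) hq
  have e1 : 1 + (y / x - 1) = y / x := by ring
  rw [e1, Real.div_rpow hy hx.le, le_div_iff₀ (Real.rpow_pos_of_pos hx q)] at h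
  have e2 : x ^ q = x ^ (q - 1) * x := by
    rw [← Real.rpow_add_one hx.ne']
    congr 1
    ring
  calc x ^ q + q * x ^ (q - 1) * (y - x) = (1 + q * (y / x - 1)) * x ^ q := by
        rw [e2]
        field_simp
    _ ≤ y ^ q := h

lemma lim1 {b : ℝ} (hb : 0 < b) (hb1 : b < 1) :
    Tendsto (fun p : ℝ => p * b ^ (p - 1)) atTop (𝓝 0) := by
  have hc : 0 < - Real.log b := by
    have := Real.log_neg hb hb1
    linarith
  have h := (tendsto_rpow_mul_exp_neg_mul_atTop_nhds_zero 1 (- Real.log b) hc).mul_const b⁻¹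
  rw [zero_mul] at h
  refine h.congr' ?_
  filter_upwards with p
  rw [Real.rpow_sub_one hb.ne', Real.rpow_def_of_pos hb, Real.rpow_one]
  have e : - -Real.log b * p = Real.log b * p := by ring
  rw [e]
  field_simp

theorem main : Pool.Agent.N594.NT.S_CAL := by
  refine ⟨fun B b c τ p hB hb hc hcb hcτ hτ hτ1 hp => ?_, fun c hc hc1 => ?_⟩
  · have h0 : 0 ≤ p * (1 - τ) ^ (p - 1) * b := by
      have : 0 ≤ (1 - τ) ^ (p - 1) := Real.rpow_nonneg (by linarith) _
      have : 0 ≤ p := by linarith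
      positivity
    rcases le_or_gt c B with h | h
    · have h1 : c ^ p ≤ B ^ p := Real.rpow_le_rpow hc h (by linarith)
      linarith
    · have hc0 : 0 < c := lt_of_le_of_lt hB h
      have h1 := tang hc0 hB hp
      have h2 : c ^ (p - 1) ≤ (1 - τ) ^ (p - 1) := Real.rpow_le_rpow hc hcτ (by linarith)
      have h3 : 0 ≤ c ^ (p - 1) := Real.rpow_nonneg hc _
      have h4 : p * c ^ (p - 1) * (c - B) ≤ p * (1 - τ) ^ (p - 1) * b := by
        have hp0 : 0 ≤ p := by linarith
        have h5 : 0 ≤ c - B := by linarith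
        have h6 : c - B ≤ b := by linarith
        have h7 : 0 ≤ (1 - τ) ^ (p - 1) := h3.trans h2
        calc p * c ^ (p - 1) * (c - B) ≤ p * (1 - τ) ^ (p - 1) * (c - B) := by gcongr
          _ ≤ p * (1 - τ) ^ (p - 1) * b := by gcongr
      nlinarith
  · have hb : 0 < 1 - c := by linarith
    have hb1 : 1 - c < 1 := by linarith
    have l0 : Tendsto (fun p : ℝ => (1 - c) ^ p) atTop (𝓝 0) :=
      tendsto_rpow_atTop_of_base_lt_one (1 - c) (by linarith) hb1
    have ev : ∀ᶠ p : ℝ in atTop, 1 ≤ p ∧ (1 - c) ^ p ≤ 1 / 2 ∧ (1 - c) ^ p ≤ c ∧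
        p * (1 - c) ^ (p - 1) ≤ c := by
      filter_upwards [eventually_ge_atTop (1 : ℝ),
        l0.eventually_le_const (by norm_num : (0 : ℝ) < 1 / 2), l0.eventually_le_const hc,
        (lim1 hb hb1).eventually_le_const hc] with p h1 h2 h3 h4
      exact ⟨h1, h2, h3, h4⟩
    obtain ⟨p₀, hp₀⟩ := eventually_atTop.1 ev
    refine ⟨max p₀ 1, le_max_right _ _, fun p hp => ?_⟩
    obtain ⟨h1, h2, h3, h4⟩ := hp₀ p (le_trans (le_max_left _ _) hp)
    refine ⟨fun u hu hu1 => ?_, h4, h3⟩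
    exact (Real.rpow_le_rpow (by linarith) (by linarith) (by linarith)).trans h2

end Pool.Agent.N300.NT.CAL
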